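import Mathlib

/-!
# The numerical part: arrangements without points of multiplicity at least `w - 4`
-/

set_option autoImplicit false

namespace Pool.Agent.Q63.LA

/-- The pairs of lines (`hA`), the inequality of Hirzebruch (`hB`) and the adjoint curves (`hC`) contradict each other if
there are `2 h ≥ 10` lines and no point has multiplicity at least `2 h - 4`. Here `R = h - 3`. -/
theorem no_arrangement {ι : Type} (T : Finset ι) (m : ι → ℕ) (R : ℕ) (hR : 2 ≤ R)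
    (h2 : ∀ P ∈ T, 2 ≤ m P) (hm : ∀ P ∈ T, m P ≤ 2 * R + 1)
    (hA : ∑ P ∈ T, ((m P : ℤ) * (m P - 1)) = (2 * R + 6) * (2 * R + 5))
    (hB : (2 * R + 6 : ℤ) + ∑ P ∈ T, ((m P - 4 : ℕ) : ℤ) ≤ ((T.filter fun P => m P = 2 ∨ m P = 3).card : ℤ))
    (hC : ((R + 2) * (R + 1) : ℤ) ≤ ∑ P ∈ T, ((m P / 2 : ℕ) : ℤ) * ((m P / 2 : ℕ) - 1)) : False := by
  classical
  have h3 : ((T.filter fun P => m P = 2 ∨ m P = 3).card : ℤ) =
      ∑ P ∈ T, (if m P = 2 ∨ m P = 3 then 1 else 0 : ℤ) := by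
    rw [Finset.card_filter]
    push_cast
    rfl
  rw [h3] at hB
  -- the contribution of one point
  have hpt : ∀ P ∈ T, (2 * (2 * R ^ 2 + R - 4) : ℤ) * (((m P / 2 : ℕ) : ℤ) * ((m P / 2 : ℕ) - 1)) ≤
      (R * (R - 1)) * (m P * (m P - 1)) + (2 * R * (R - 1)) * ((m P - 4 : ℕ) : ℤ) -
        (2 * R * (R - 1)) * (if m P = 2 ∨ m P = 3 then 1 else 0 : ℤ) := by
    intro P hP
    have ha := h2 P hP
    have hb := hm P hP
    have hRz : (2 : ℤ) ≤ R := by exact_mod_cast hR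
    by_cases hc : m P = 2 ∨ m P = 3
    · rw [if_pos hc]
      rcases hc with hc | hc <;> rw [hc] <;> norm_num <;> nlinarith
    · rw [if_neg hc]
      push Not at hc
      obtain ⟨x, hx⟩ : ∃ x, m P = x + 4 := ⟨m P - 4, by omega⟩
      have h4 : m P - 4 = x := by omega
      obtain ⟨r, hr⟩ : ∃ r, m P / 2 = r + 2 := ⟨m P / 2 - 2, by omega⟩
      have hrR : r + 2 ≤ R := by omega
      have hrx : 2 * r ≤ x := by omega
      rw [h4, hr, hx]
      push_cast
      have hrRz : (r : ℤ) + 2 ≤ R := by exact_mod_cast hrR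
      have hrxz : (2 : ℤ) * r ≤ x := by exact_mod_cast hrx
      have hr0 : (0 : ℤ) ≤ r := Int.natCast_nonneg r
      have hx0 : (0 : ℤ) ≤ x := Int.natCast_nonneg x
      -- monotone in `x`
      have h5 : (R * (R - 1) : ℤ) * ((2 * r + 4) * (2 * r + 3)) + (2 * R * (R - 1)) * (2 * r) ≤
          (R * (R - 1)) * ((x + 4) * (x + 4 - 1)) + (2 * R * (R - 1)) * x := by
        have h6 : (0 : ℤ) ≤ R * (R - 1) := by nlinarith
        have h7 : (2 * (r : ℤ) + 4) * (2 * r + 3) ≤ (x + 4) * (x + 4 - 1) := by nlinarith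
        nlinarith [mul_le_mul_of_nonneg_left h7 h6, mul_le_mul_of_nonneg_left hrxz h6]
      refine le_trans ?_ (le_trans h5 (by linarith))
      -- `2 (2 R^2 + R - 4) (r+2)(r+1) ≤ R (R-1) (4 r^2 + 18 r + 12)`
      obtain ⟨d, hd⟩ : ∃ d : ℕ, R = r + 2 + d := ⟨R - (r + 2), by omega⟩
      have hdz : (R : ℤ) = r + 2 + d := by exact_mod_cast hd
      have hd0 : (0 : ℤ) ≤ d := Int.natCast_nonneg d
      rw [hdz]
      have h8 : (0 : ℤ) ≤ r * d := mul_nonneg hr0 hd0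
      have h9 : (0 : ℤ) ≤ r * d * d := mul_nonneg h8 hd0
      have h10 : (0 : ℤ) ≤ r * r * d := mul_nonneg (mul_nonneg hr0 hr0) hd0
      have h12 : (0 : ℤ) ≤ d * d := mul_nonneg hd0 hd0
      have h13 : ((r + 2 + d) * (r + 2 + d - 1) : ℤ) * ((2 * r + 4) * (2 * r + 3)) +
          (2 * (r + 2 + d) * (r + 2 + d - 1)) * (2 * r) -
          (2 * (2 * (r + 2 + d) ^ 2 + (r + 2 + d) - 4)) * ((r + 2) * (r + 2 - 1)) =
          2 * (3 * (r * r * d) + 4 * (r * d) + 3 * (r * d * d) + 2 * (d * d)) := by ring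
      linarith
  have hsum := Finset.sum_le_sum hpt
  rw [← Finset.mul_sum, Finset.sum_sub_distrib, Finset.sum_add_distrib, ← Finset.mul_sum,
    ← Finset.mul_sum, ← Finset.mul_sum, hA] at hsum
  have hRz : (2 : ℤ) ≤ R := by exact_mod_cast hR
  have h6 : (0 : ℤ) ≤ 2 * R * (R - 1) := by nlinarith
  have h7 := mul_le_mul_of_nonneg_left hB h6
  have h8 : (0 : ℤ) ≤ 2 * (2 * R ^ 2 + R - 4) := by nlinarith
  have h9 := mul_le_mul_of_nonneg_left hC h8
  have h10 : (2 * (2 * R ^ 2 + R - 4) : ℤ) * ((R + 2) * (R + 1)) ≤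
      (R * (R - 1)) * ((2 * R + 6) * (2 * R + 5)) - (2 * R * (R - 1)) * (2 * R + 6) := by
    linarith
  have h11 : (2 * (2 * R ^ 2 + R - 4) : ℤ) * ((R + 2) * (R + 1)) -
      ((R * (R - 1)) * ((2 * R + 6) * (2 * R + 5)) - (2 * R * (R - 1)) * (2 * R + 6)) =
      2 * (3 * R ^ 2 - R - 8) := by ring
  nlinarith

end Pool.Agent.Q63.LA
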