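import Mathlib

/-!
# Multiplicities of the points of line arrangements
-/

set_option autoImplicit false

namespace Pool.Agent.Q63.LA

open Matrix

/-- the complex projective plane -/
abbrev Plane : Type := Projectivization ℂ (Fin 3 → ℂ)

/-- The lines `v i ⬝ᵥ z = 0` of the complex projective plane are different. -/
def Distinct {s : ℕ} (v : Fin s → Fin 3 → ℂ) : Prop := ∀ i j, i ≠ j → LinearIndependent ℂ ![v i, v j]

open Classical in
/-- The number of the lines `v i` through the point `P` with `a i ≠ 0`. -/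
noncomputable def mult {s : ℕ} (v : Fin s → Fin 3 → ℂ) (a : Fin s → ZMod 2) (P : Plane) : ℕ :=
  (Finset.univ.filter fun i => a i ≠ 0 ∧ v i ⬝ᵥ P.rep = 0).card

/-- The number of the lines with `a i ≠ 0`. -/
def weight {s : ℕ} (a : Fin s → ZMod 2) : ℕ := (Finset.univ.filter fun i => a i ≠ 0).card

variable {s : ℕ} {v : Fin s → Fin 3 → ℂ}

lemma cross_ne (hv : Distinct v) {i j : Fin s} (h : i ≠ j) : v i ⨯₃ v j ≠ 0 :=
  crossProduct_ne_zero_iff_linearIndependent.2 (hv i j h)

open Classical in
/-- the intersection point of two lines -/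
noncomputable def pt (v : Fin s → Fin 3 → ℂ) (x : Fin s × Fin s) : Plane :=
  if h : v x.1 ⨯₃ v x.2 ≠ 0 then Projectivization.mk ℂ (v x.1 ⨯₃ v x.2) h
  else Projectivization.mk ℂ (fun _ => 1) (fun h => one_ne_zero (congrFun h 0))

/-- two different lines meet in exactly one point -/
lemma pt_eq_iff (hv : Distinct v) {i j : Fin s} (h : i ≠ j) (P : Plane) :
    pt v (i, j) = P ↔ v i ⬝ᵥ P.rep = 0 ∧ v j ⬝ᵥ P.rep = 0 := by
  have hne := cross_ne hv h
  unfold pt
  rw [dif_pos hne]
  constructor
  · intro hP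
    obtain ⟨c, hc⟩ := Projectivization.exists_smul_eq_mk_rep ℂ (v i ⨯₃ v j) hne
    have h1 : P.rep = (c : ℂ) • (v i ⨯₃ v j) := by
      rw [← hP]
      exact hc.symm
    rw [h1, dotProduct_smul, dotProduct_smul, dot_self_cross, dot_cross_self, smul_zero]
    exact ⟨rfl, rfl⟩
  · rintro ⟨h1, h2⟩
    rw [← Projectivization.mk_rep P]
    rw [Projectivization.mk_eq_mk_iff']
    -- `P.rep` and the cross product are proportional
    have h3 : P.rep ⨯₃ (v i ⨯₃ v j) = 0 := by
      have h1' : P.rep ⬝ᵥ v i = 0 := by rw [dotProduct_comm]; exact h1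
      have h2' : P.rep ⬝ᵥ v j = 0 := by rw [dotProduct_comm]; exact h2
      simp only [dotProduct, Fin.sum_univ_three] at h1' h2'
      ext k
      fin_cases k <;> simp only [cross_apply] <;> simp
      · linear_combination v i 0 * h2' - v j 0 * h1'
      · linear_combination v i 1 * h2' - v j 1 * h1'
      · linear_combination v i 2 * h2' - v j 2 * h1'
    have h4 : ¬ LinearIndependent ℂ ![P.rep, v i ⨯₃ v j] := by
      intro hli
      exact crossProduct_ne_zero_iff_linearIndependent.2 hli h3
    rw [LinearIndependent.pair_iff] at h4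
    push Not at h4
    obtain ⟨α, β, hαβ, hne'⟩ := h4
    have hβ : β ≠ 0 := by
      intro hβ
      rw [hβ, zero_smul, add_zero] at hαβ
      rcases smul_eq_zero.1 hαβ with h5 | h5
      · exact hne' h5 hβ
      · exact P.rep_nonzero h5
    refine ⟨-(α / β), ?_⟩
    have h6 : β • (v i ⨯₃ v j) = -(α • P.rep) := eq_neg_of_add_eq_zero_right hαβ
    have h7 : v i ⨯₃ v j = β⁻¹ • (β • (v i ⨯₃ v j)) := by
      rw [smul_smul, inv_mul_cancel₀ hβ, one_smul]
    rw [h7, h6, smul_neg, smul_smul, neg_smul]
    congr 2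
    ring

open Classical in
/-- the set of the lines with `a i ≠ 0` -/
noncomputable def sup (a : Fin s → ZMod 2) : Finset (Fin s) := Finset.univ.filter fun i => a i ≠ 0

open Classical in
/-- the intersection points of the lines with `a i ≠ 0` -/
noncomputable def pts (v : Fin s → Fin 3 → ℂ) (a : Fin s → ZMod 2) : Finset Plane :=
  (sup a).offDiag.image (pt v)

lemma sup_card (a : Fin s → ZMod 2) : (sup a).card = weight a := by
  unfold sup weight
  congr

/-- a point of multiplicity at least two is an intersection point -/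
lemma mem_pts (hv : Distinct v) {a : Fin s → ZMod 2} {P : Plane} (h : 2 ≤ mult v a P) : P ∈ pts v a := by
  classical
  unfold mult at h
  obtain ⟨i, hi, j, hj, hij⟩ := Finset.one_lt_card.1 (lt_of_lt_of_le one_lt_two h)
  rw [Finset.mem_filter] at hi hj
  unfold pts
  rw [Finset.mem_image]
  refine ⟨(i, j), ?_, (pt_eq_iff hv hij P).2 ⟨hi.2.2, hj.2.2⟩⟩
  rw [Finset.mem_offDiag]
  unfold sup
  exact ⟨by simpa using hi.2.1, by simpa using hj.2.1, hij⟩

/-- The pairs of lines are counted by their intersection points. -/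
theorem sum_mult (hv : Distinct v) (a : Fin s → ZMod 2) :
    ∑ P ∈ pts v a, (mult v a P * mult v a P - mult v a P) = weight a * weight a - weight a := by
  classical
  have h1 : (sup a).offDiag.card = ∑ P ∈ pts v a, ((sup a).offDiag.filter fun x => pt v x = P).card :=
    Finset.card_eq_sum_card_image _ _
  rw [Finset.offDiag_card, sup_card] at h1
  rw [h1]
  refine Finset.sum_congr rfl fun P _ => ?_
  have h2 : (sup a).offDiag.filter (fun x => pt v x = P) =
      (Finset.univ.filter fun i => a i ≠ 0 ∧ v i ⬝ᵥ P.rep = 0).offDiag := by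
    ext ⟨i, j⟩
    rw [Finset.mem_filter, Finset.mem_offDiag, Finset.mem_offDiag]
    simp only [sup, Finset.mem_filter, Finset.mem_univ, true_and]
    constructor
    · rintro ⟨⟨hi, hj, hij⟩, hP⟩
      obtain ⟨h3, h4⟩ := (pt_eq_iff hv hij P).1 hP
      exact ⟨⟨hi, h3⟩, ⟨hj, h4⟩, hij⟩
    · rintro ⟨⟨hi, h3⟩, ⟨hj, h4⟩, hij⟩
      exact ⟨⟨hi, hj, hij⟩, (pt_eq_iff hv hij P).2 ⟨h3, h4⟩⟩
  rw [h2, Finset.offDiag_card]
  unfold mult
  congr!

end Pool.Agent.Q63.LA
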