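import Mathlib
import Pool.Agent.Q63.LA.Points
import Pool.Agent.Q63.LA.Num
import Pool.Agent.Q63.DQ.Main

/-!
# Zero-cycles on `(ℤ/2)^k`-coverings of the plane branched over lines in arbitrary position
-/

set_option autoImplicit false

namespace Pool.Agent.Q63.LA

open Multiplicative Matrix Pool.Agent.Q63.DQ

/-- `X` is a smooth projective complex surface which is birational to an abelian covering of the plane, with the
group `G`, a quotient of `(ℤ/2)^s`, branched over the lines `v i ⬝ᵥ z = 0` (in arbitrary position); `Λ` is the group of the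
characters of `G`. `pg a` is the geometric genus of the double plane `X / ker a`, which is branched over the lines with
`a i ≠ 0`, and `V` is the Albanese kernel of `X`, tensored with `ℚ`, with the action `ρ` of the group (through
correspondences). -/
structure LineArrangementCover {s : ℕ} (v : Fin s → Fin 3 → ℂ) (Λ : AddSubgroup (Fin s → ZMod 2))
    (pg : (Fin s → ZMod 2) → ℕ) (ψ : AddChar (ZMod 2) ℚ) {V : Type} [AddCommGroup V] [Module ℚ V]
    (ρ : Representation ℚ (Multiplicative (Fin s → ZMod 2)) V) : Prop where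
  distinct : Distinct v
  /-- double planes are branched in even degree -/
  even : ∀ a ∈ Λ, ∑ i, a i = 0
  /-- only characters of `G` occur -/
  characters : ∀ a, a ∉ Λ → part ψ ρ a = ⊥
  /-- The two-forms on the double plane branched over `2 h` lines are the curves of degree `h - 3` with multiplicity at
  least `r - 1` at each point of multiplicity `2 r` or `2 r + 1` of the branch curve, which is a condition of codimension
  at most `r (r - 1) / 2`. -/
  adjoint : ∀ a ∈ Λ, a ≠ 0 →
    (weight a / 2 - 1).choose 2 ≤ pg a + ∑ᶠ P : Plane, (mult v a P / 2).choose 2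
  /-- **Hirzebruch's inequality** for line arrangements, a consequence of the Bogomolov-Miyaoka-Yau inequality:
  if no point is on all or all but one of `w` lines then `w + ∑ (m - 4) ≤ t_2 + t_3`, where the sum is over the points
  of multiplicity `m ≥ 5`, and `t_m` is the number of the points of multiplicity `m`. -/
  hirzebruch : ∀ a ∈ Λ, (∀ P, mult v a P + 2 ≤ weight a) →
    weight a + ∑ᶠ P : Plane, (mult v a P - 4) ≤ {P : Plane | mult v a P = 2 ∨ mult v a P = 3}.ncard
  /-- The lines through a point of multiplicity at least `w - 4` of the branch curve give a pencil of rational or elliptic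
  curves on the double plane; so it is not of general type, and its Albanese kernel is zero if it has no two-forms
  (Bloch, Kas, Lieberman). -/
  known : ∀ a ∈ Λ, pg a = 0 → (∃ P, weight a ≤ mult v a P + 4) → part ψ ρ a = ⊥

variable {s : ℕ} {v : Fin s → Fin 3 → ℂ} {Λ : AddSubgroup (Fin s → ZMod 2)}
  {pg : (Fin s → ZMod 2) → ℕ} {ψ : AddChar (ZMod 2) ℚ} {V : Type} [AddCommGroup V] [Module ℚ V]
  {ρ : Representation ℚ (Multiplicative (Fin s → ZMod 2)) V}

lemma two_choose (n : ℕ) : (2 * (n.choose 2 : ℕ) : ℤ) = n * (n - 1) := by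
  induction n with
  | zero => simp
  | succ n ih =>
    rw [Nat.choose_succ_succ' n 1, Nat.choose_one_right]
    push_cast
    linarith

lemma two_le_mult (hv : Distinct v) {a : Fin s → ZMod 2} {P : Plane} (hP : P ∈ pts v a) :
    2 ≤ mult v a P := by
  classical
  unfold pts at hP
  rw [Finset.mem_image] at hP
  obtain ⟨⟨i, j⟩, hij, rfl⟩ := hP
  rw [Finset.mem_offDiag] at hij
  simp only [sup, Finset.mem_filter, Finset.mem_univ, true_and] at hij
  obtain ⟨h1, h2⟩ := (pt_eq_iff hv hij.2.2 (pt v (i, j))).1 rfl
  unfold mult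
  refine Finset.one_lt_card.2 ⟨i, ?_, j, ?_, hij.2.2⟩
  · simp only [Finset.mem_filter, Finset.mem_univ, true_and]
    exact ⟨hij.1, h1⟩
  · simp only [Finset.mem_filter, Finset.mem_univ, true_and]
    exact ⟨hij.2.1, h2⟩

lemma finsum_pts (hv : Distinct v) (a : Fin s → ZMod 2) (f : ℕ → ℕ) (h0 : f 0 = 0) (h1 : f 1 = 0) :
    ∑ᶠ P : Plane, f (mult v a P) = ∑ P ∈ pts v a, f (mult v a P) := by
  refine finsum_eq_sum_of_support_subset _ fun P hP => ?_
  rw [Function.mem_support] at hP
  rw [Finset.mem_coe]
  apply mem_pts hv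
  by_contra hcon
  have : mult v a P = 0 ∨ mult v a P = 1 := by omega
  rcases this with h | h <;> rw [h] at hP
  · exact hP h0
  · exact hP h1

lemma weight_even' {a : Fin s → ZMod 2} (ha : ∑ i, a i = 0) : ∃ h, weight a = 2 * h := by
  obtain ⟨t, ht⟩ := Pool.Agent.Q63.GB.weight_even ha
  exact ⟨t, by
    have : weight a = Pool.Agent.Q63.GB.weight a := rfl
    omega⟩

/-- The two-forms determine the position of the lines. -/
theorem exists_point (hX : LineArrangementCover v Λ pg ψ ρ) {a : Fin s → ZMod 2} (ha : a ∈ Λ)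
    (hpg : pg a = 0) : ∃ P : Plane, weight a ≤ mult v a P + 4 := by
  classical
  by_contra hcon
  push Not at hcon
  obtain ⟨h, hh⟩ := weight_even' (hX.even a ha)
  have hv := hX.distinct
  let P0 : Plane := Projectivization.mk ℂ (fun _ => 1) (fun h => one_ne_zero (congrFun h 0))
  have h5 := hcon P0
  -- there is an intersection point
  have h8 : 4 ≤ h := by
    have h2 : 1 < (Finset.univ.filter fun i => a i ≠ 0).card := by
      have : weight a = (Finset.univ.filter fun i => a i ≠ 0).card := rfl
      omega
    obtain ⟨i, hi, j, hj, hij⟩ := Finset.one_lt_card.1 h2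
    rw [Finset.mem_filter] at hi hj
    have hP : pt v (i, j) ∈ pts v a := by
      unfold pts
      refine Finset.mem_image_of_mem _ ?_
      rw [Finset.mem_offDiag]
      simp only [sup, Finset.mem_filter, Finset.mem_univ, true_and]
      exact ⟨hi.2, hj.2, hij⟩
    have h3 := two_le_mult hv hP
    have h4 := hcon (pt v (i, j))
    omega
  have ha0 : a ≠ 0 := by
    rintro rfl
    have : weight (0 : Fin s → ZMod 2) = 0 := by simp [weight]
    omega
  have hadj := hX.adjoint a ha ha0
  rw [hpg, zero_add, finsum_pts hv a (fun m => (m / 2).choose 2) (by decide) (by decide)] at hadj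
  have hw2 : weight a / 2 = h := by omega
  rw [hw2] at hadj
  rcases Nat.lt_or_ge h 5 with h9 | h9
  · -- eight lines
    have h4 : h = 4 := by omega
    subst h4
    have h10 : ∑ P ∈ pts v a, (mult v a P / 2).choose 2 = 0 := by
      refine Finset.sum_eq_zero fun P _ => ?_
      have := hcon P
      have h11 : mult v a P / 2 ≤ 1 := by omega
      exact Nat.choose_eq_zero_of_lt (by omega)
    rw [h10] at hadj
    norm_num [Nat.choose] at hadj
  · obtain ⟨R, hR⟩ : ∃ R, h = R + 3 := ⟨h - 3, by omega⟩
    have hwR : weight a = 2 * R + 6 := by omega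
    refine no_arrangement (pts v a) (mult v a) R (by omega) (fun P hP => two_le_mult hv hP)
      (fun P _ => by have := hcon P; omega) ?_ ?_ ?_
    · have h1 := sum_mult hv a
      have h2 : ∀ n : ℕ, ((n * n - n : ℕ) : ℤ) = n * (n - 1) := by
        intro n
        rw [Nat.cast_sub (Nat.le_mul_self n)]
        push_cast
        ring
      have h3 : ((∑ P ∈ pts v a, (mult v a P * mult v a P - mult v a P) : ℕ) : ℤ) =
          ((weight a * weight a - weight a : ℕ) : ℤ) := by rw [h1]
      rw [Nat.cast_sum, h2, hwR] at h3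
      simp_rw [h2] at h3
      rw [h3]
      push_cast
      ring
    · have h1 := hX.hirzebruch a ha fun P => by have := hcon P; omega
      rw [finsum_pts hv a (fun m => m - 4) (by decide) (by decide)] at h1
      have h2 : {P : Plane | mult v a P = 2 ∨ mult v a P = 3} =
          ((pts v a).filter fun P => mult v a P = 2 ∨ mult v a P = 3 : Finset Plane) := by
        ext P
        simp only [Set.mem_ofPred_eq, Finset.coe_filter]
        constructor
        · intro h3
          exact ⟨mem_pts hv (by omega), h3⟩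
        · exact fun h3 => h3.2
      rw [h2, Set.ncard_coe_finset, hwR] at h1
      have h3 : ((2 * R + 6 + ∑ P ∈ pts v a, (mult v a P - 4) : ℕ) : ℤ) ≤
          (((pts v a).filter fun P => mult v a P = 2 ∨ mult v a P = 3).card : ℤ) := by
        exact_mod_cast h1
      push_cast at h3 ⊢
      convert h3 using 3
    · have h1 : ((2 * (h - 1).choose 2 : ℕ) : ℤ) ≤
          ((2 * ∑ P ∈ pts v a, (mult v a P / 2).choose 2 : ℕ) : ℤ) := by
        exact_mod_cast Nat.mul_le_mul_left 2 hadj
      have h2 : h - 1 = R + 2 := by omega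
      rw [h2] at h1
      have h3 : ((2 * (R + 2).choose 2 : ℕ) : ℤ) = (R + 2) * (R + 1) := by
        have := two_choose (R + 2)
        push_cast at this ⊢
        rw [this]
        ring
      have h4 : ((2 * ∑ P ∈ pts v a, (mult v a P / 2).choose 2 : ℕ) : ℤ) =
          ∑ P ∈ pts v a, ((mult v a P / 2 : ℕ) : ℤ) * ((mult v a P / 2 : ℕ) - 1) := by
        rw [Nat.cast_mul, Nat.cast_sum, Finset.mul_sum]
        refine Finset.sum_congr rfl fun P _ => ?_
        exact two_choose _
      rw [h3, h4] at h1
      exact h1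

/-- Correspondences in the group ring which annihilate the two-forms annihilate the Albanese kernel. -/
theorem group_ring (hψ : ψ.IsPrimitive) (hX : LineArrangementCover v Λ pg ψ ρ)
    (x : (Fin s → ZMod 2) → ℚ) (hx : ∀ a ∈ Λ, pg a ≠ 0 → ∑ h, x h * ψ (∑ i, a i * h i) = 0) (u : V) :
    ∑ h, x h • ρ (ofAdd h) u = 0 := by
  have hpart : ∀ a, ∀ u ∈ part ψ ρ a, ∑ h, x h • ρ (ofAdd h) u = (∑ h, x h * ψ (∑ i, a i * h i)) • u := by
    intro a u hu
    rw [Finset.sum_smul]
    exact Finset.sum_congr rfl fun h _ => by rw [hu h, smul_smul]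
  have hcmp : ∀ a, ∑ h, x h • ρ (ofAdd h) (cmp ψ ρ u a) = 0 := by
    intro a
    by_cases ha : a ∈ Λ
    · by_cases hp : pg a = 0
      · have h1 := hX.known a ha hp (exists_point hX ha hp)
        have h2 := cmp_mem (ψ := ψ) (ρ := ρ) u a
        rw [h1, Submodule.mem_bot] at h2
        simp [h2]
      · rw [hpart a _ (cmp_mem u a), hx a ha hp, zero_smul]
    · have h2 := cmp_mem (ψ := ψ) (ρ := ρ) u a
      rw [hX.characters a ha, Submodule.mem_bot] at h2
      simp [h2]
  have h1 : ((2 : ℚ) ^ s)⁻¹ • ((2 : ℚ) ^ s • u) = u := by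
    rw [smul_smul, inv_mul_cancel₀ (by positivity), one_smul]
  rw [← h1, ← sum_cmp (ρ := ρ) hψ u]
  have h2 : ∀ h : Fin s → ZMod 2, x h • ρ (ofAdd h) (((2 : ℚ) ^ s)⁻¹ • ∑ a, cmp ψ ρ u a) =
      ((2 : ℚ) ^ s)⁻¹ • ∑ a, x h • ρ (ofAdd h) (cmp ψ ρ u a) := by
    intro h
    rw [map_smul, map_sum, smul_comm, Finset.smul_sum]
  simp_rw [h2]
  rw [← Finset.smul_sum, Finset.sum_comm]
  simp_rw [hcmp]
  simp

end Pool.Agent.Q63.LA
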